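import Mathlib

/-!
# One-unconditional bases: finite sums and coordinate functionals
-/

set_option autoImplicit false

open Filter Topology

namespace Pool.Agent.Helper412_PiBase

variable {X : Type} [NormedAddCommGroup X] [NormedSpace ℝ X]

/-- the sign condition on finite sums -/
def OneUnc (e : ℕ → X) : Prop :=
  ∀ (s : Finset ℕ) (a ε : ℕ → ℝ), (∀ n, ε n = 1 ∨ ε n = -1) →
    ‖∑ n ∈ s, (ε n * a n) • e n‖ ≤ ‖∑ n ∈ s, a n • e n‖

/-- every vector has exactly one unconditional expansion -/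
def IsB (e : ℕ → X) : Prop := ∀ x : X, ∃! a : ℕ → ℝ, HasSum (fun n => a n • e n) x

/-- Passing to a smaller finite set does not increase the norm. -/
theorem norm_sum_mono {e : ℕ → X} (hu : OneUnc e) {s t : Finset ℕ} (hst : s ⊆ t) (a : ℕ → ℝ) :
    ‖∑ n ∈ s, a n • e n‖ ≤ ‖∑ n ∈ t, a n • e n‖ := by
  classical
  have h := hu t a (fun n => if n ∈ s then 1 else -1) (fun n => by split_ifs <;> simp)
  have h2 : ∑ n ∈ s, a n • e n = (1 / 2 : ℝ) • (∑ n ∈ t, a n • e n +
      ∑ n ∈ t, ((if n ∈ s then (1 : ℝ) else -1) * a n) • e n) := by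
    rw [← Finset.sum_add_distrib, Finset.smul_sum, ← Finset.sum_subset hst]
    · refine Finset.sum_congr rfl fun n hn => ?_
      rw [if_pos hn, one_mul, ← add_smul, smul_smul]
      congr 1
      ring
    · intro n _ hn
      rw [if_neg hn, ← add_smul]
      simp
  rw [h2, norm_smul]
  have h3 := norm_add_le (∑ n ∈ t, a n • e n)
    (∑ n ∈ t, ((if n ∈ s then (1 : ℝ) else -1) * a n) • e n)
  have h4 : ‖(1 / 2 : ℝ)‖ = 1 / 2 := by norm_num
  rw [h4]
  linarith

/-- Sign changes do not change the weighted absolute sums, hence these are dominated. -/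
theorem abs_sum_le {e : ℕ → X} (hu : OneUnc e) (f : StrongDual ℝ X) (s : Finset ℕ) (a : ℕ → ℝ) :
    ∑ n ∈ s, |f (e n)| * |a n| ≤ ‖f‖ * ‖∑ n ∈ s, a n • e n‖ := by
  classical
  have h := hu s a (fun n => if 0 ≤ f (e n) * a n then 1 else -1) (fun n => by split_ifs <;> simp)
  have h1 : ∑ n ∈ s, |f (e n)| * |a n|
      = f (∑ n ∈ s, ((if 0 ≤ f (e n) * a n then (1 : ℝ) else -1) * a n) • e n) := by
    rw [map_sum]
    refine Finset.sum_congr rfl fun n _ => ?_
    rw [map_smul, smul_eq_mul, ← abs_mul]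
    split_ifs with h0
    · rw [abs_of_nonneg h0]; ring
    · rw [abs_of_neg (not_le.1 h0)]; ring
  rw [h1]
  calc f (∑ n ∈ s, ((if 0 ≤ f (e n) * a n then (1 : ℝ) else -1) * a n) • e n)
      ≤ ‖f (∑ n ∈ s, ((if 0 ≤ f (e n) * a n then (1 : ℝ) else -1) * a n) • e n)‖ :=
        Real.le_norm_self _
    _ ≤ ‖f‖ * ‖∑ n ∈ s, ((if 0 ≤ f (e n) * a n then (1 : ℝ) else -1) * a n) • e n‖ :=
        f.le_opNorm _
    _ ≤ _ := mul_le_mul_of_nonneg_left h (norm_nonneg _)

/-- the coordinates -/
noncomputable def co {e : ℕ → X} (hb : IsB e) (x : X) : ℕ → ℝ := (hb x).choose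

theorem co_hasSum {e : ℕ → X} (hb : IsB e) (x : X) : HasSum (fun n => co hb x n • e n) x :=
  (hb x).choose_spec.1

theorem co_unique {e : ℕ → X} (hb : IsB e) {x : X} {a : ℕ → ℝ}
    (h : HasSum (fun n => a n • e n) x) : a = co hb x :=
  (hb x).choose_spec.2 a h

theorem co_add {e : ℕ → X} (hb : IsB e) (x y : X) (n : ℕ) :
    co hb (x + y) n = co hb x n + co hb y n := by
  have h : HasSum (fun n => (co hb x n + co hb y n) • e n) (x + y) := by
    simpa [add_smul] using (co_hasSum hb x).add (co_hasSum hb y)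
  exact (congrFun (co_unique hb h) n).symm

theorem co_smul {e : ℕ → X} (hb : IsB e) (c : ℝ) (x : X) (n : ℕ) :
    co hb (c • x) n = c * co hb x n := by
  have h : HasSum (fun n => (c * co hb x n) • e n) (c • x) := by
    simpa [mul_smul] using (co_hasSum hb x).const_smul c
  exact (congrFun (co_unique hb h) n).symm

theorem e_ne_zero {e : ℕ → X} (hb : IsB e) (n : ℕ) : e n ≠ 0 := by
  classical
  intro h0
  have h1 : HasSum (fun k => (0 : ℕ → ℝ) k • e k) (0 : X) := by
    simpa using (hasSum_zero : HasSum (fun _ : ℕ => (0 : X)) 0)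
  have h2 : HasSum (fun k => (Pi.single n (1 : ℝ) : ℕ → ℝ) k • e k) (0 : X) := by
    have : (fun k => (Pi.single n (1 : ℝ) : ℕ → ℝ) k • e k) = fun _ => (0 : X) := by
      funext k
      by_cases hk : k = n
      · subst hk; rw [h0, smul_zero]
      · rw [Pi.single_eq_of_ne hk, zero_smul]
    rw [this]
    exact hasSum_zero
  have h3 := (co_unique hb h1).trans (co_unique hb h2).symm
  have h4 := congrFun h3 n
  simp at h4

/-- finite sections do not increase the norm -/
theorem norm_section_le {e : ℕ → X} (hu : OneUnc e) (hb : IsB e) (x : X) (s : Finset ℕ) :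
    ‖∑ n ∈ s, co hb x n • e n‖ ≤ ‖x‖ := by
  have h := (co_hasSum hb x).norm
  refine ge_of_tendsto h ?_
  filter_upwards [eventually_ge_atTop s] with t ht
  exact norm_sum_mono hu ht _

/-- the coordinate functional -/
noncomputable def coord {e : ℕ → X} (hu : OneUnc e) (hb : IsB e) (n : ℕ) : StrongDual ℝ X :=
  LinearMap.mkContinuous
    { toFun := fun x => co hb x n
      map_add' := fun x y => co_add hb x y n
      map_smul' := fun c x => co_smul hb c x n } (‖e n‖⁻¹) (fun x => by
        have h := norm_section_le hu hb x {n}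
        rw [Finset.sum_singleton, norm_smul] at h
        have he : 0 < ‖e n‖ := norm_pos_iff.2 (e_ne_zero hb n)
        show ‖co hb x n‖ ≤ ‖e n‖⁻¹ * ‖x‖
        rw [inv_mul_eq_div, le_div_iff₀ he]
        exact h)

theorem coord_apply {e : ℕ → X} (hu : OneUnc e) (hb : IsB e) (n : ℕ) (x : X) :
    coord hu hb n x = co hb x n := rfl

end Pool.Agent.Helper412_PiBase
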