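import Pool.Agent.Helper412_PiBase.Basic

/-!
# The maximality argument

Among the finitely supported vectors of a weakly open part of the ball one with a nearly maximal
weighted absolute sum has the property that all vectors of the ball which are close to it on a
long initial segment have small weighted absolute sums off this segment.
-/

set_option autoImplicit false

open Filter Topology

namespace Pool.Agent.Helper412_PiBase

variable {X : Type} [NormedAddCommGroup X] [NormedSpace ℝ X]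

/-- finite linear combination -/
noncomputable def vv (e : ℕ → X) (s : Finset ℕ) (a : ℕ → ℝ) : X := ∑ n ∈ s, a n • e n

/-- weights -/
noncomputable def ww (e : ℕ → X) (Fs : Finset (StrongDual ℝ X)) (n : ℕ) : ℝ := ∑ f ∈ Fs, |f (e n)|

/-- weighted absolute sum -/
noncomputable def SS (e : ℕ → X) (Fs : Finset (StrongDual ℝ X)) (s : Finset ℕ) (a : ℕ → ℝ) : ℝ :=
  ∑ n ∈ s, ww e Fs n * |a n|

theorem ww_nonneg (e : ℕ → X) (Fs : Finset (StrongDual ℝ X)) (n : ℕ) : 0 ≤ ww e Fs n :=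
  Finset.sum_nonneg fun _ _ => abs_nonneg _

theorem SS_nonneg (e : ℕ → X) (Fs : Finset (StrongDual ℝ X)) (s : Finset ℕ) (a : ℕ → ℝ) :
    0 ≤ SS e Fs s a :=
  Finset.sum_nonneg fun _ _ => mul_nonneg (ww_nonneg _ _ _) (abs_nonneg _)

theorem SS_le {e : ℕ → X} (hu : OneUnc e) (Fs : Finset (StrongDual ℝ X)) (s : Finset ℕ)
    (a : ℕ → ℝ) : SS e Fs s a ≤ (∑ f ∈ Fs, ‖f‖) * ‖vv e s a‖ := by
  unfold SS ww vv
  rw [Finset.sum_mul]
  simp_rw [Finset.sum_mul]
  rw [Finset.sum_comm]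
  exact Finset.sum_le_sum fun f _ => abs_sum_le hu f s a

theorem abs_apply_vv_le (e : ℕ → X) {Fs : Finset (StrongDual ℝ X)} {f : StrongDual ℝ X}
    (hf : f ∈ Fs) (s : Finset ℕ) (a : ℕ → ℝ) : |f (vv e s a)| ≤ SS e Fs s a := by
  unfold vv SS
  rw [map_sum]
  refine (Finset.abs_sum_le_sum_abs _ _).trans (Finset.sum_le_sum fun n _ => ?_)
  rw [map_smul, smul_eq_mul, abs_mul, mul_comm]
  refine mul_le_mul_of_nonneg_right ?_ (abs_nonneg _)
  exact Finset.single_le_sum (f := fun f : StrongDual ℝ X => |f (e n)|)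
    (fun _ _ => abs_nonneg _) hf

theorem core {e : ℕ → X} (hu : OneUnc e) (hb : IsB e) (Fs : Finset (StrongDual ℝ X)) {x0 : X}
    (hx0 : ‖x0‖ ≤ 1) {ε : ℝ} (hε : 0 < ε) :
    ∃ (s : Finset ℕ) (a : ℕ → ℝ) (N : ℕ) (δ : ℝ), 0 < δ ∧ s ⊆ Finset.range N ∧
      (∀ n, n ∉ s → a n = 0) ∧ ‖vv e s a‖ ≤ 1 ∧ (∀ f ∈ Fs, |f (vv e s a) - f x0| < ε / 2) ∧
      ∀ y : X, ‖y‖ ≤ 1 → (∀ n, n < N → |co hb y n - a n| < δ) →
        ∀ t : Finset ℕ, Disjoint (Finset.range N) t → SS e Fs t (co hb y) ≤ ε / 4 := by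
  classical
  set C : ℝ := ∑ f ∈ Fs, ‖f‖ with hC
  have hC0 : 0 ≤ C := Finset.sum_nonneg fun _ _ => norm_nonneg _
  let P : Finset ℕ → (ℕ → ℝ) → Prop := fun s a =>
    ‖vv e s a‖ ≤ 1 ∧ ∀ f ∈ Fs, |f (vv e s a) - f x0| < ε / 2
  let T : Set ℝ := {r | ∃ s a, P s a ∧ r = SS e Fs s a}
  have hTb : BddAbove T := by
    refine ⟨C, ?_⟩
    rintro r ⟨s, a, hP, rfl⟩
    calc SS e Fs s a ≤ C * ‖vv e s a‖ := SS_le hu Fs s a
      _ ≤ C * 1 := mul_le_mul_of_nonneg_left hP.1 hC0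
      _ = C := mul_one C
  have hTn : T.Nonempty := by
    have h1 : ∀ f ∈ Fs, ∀ᶠ s : Finset ℕ in atTop, |f (vv e s (co hb x0)) - f x0| < ε / 2 := by
      intro f _
      have h2 : Tendsto (fun s : Finset ℕ => f (vv e s (co hb x0))) atTop (𝓝 (f x0)) :=
        (f.continuous.tendsto _).comp (co_hasSum hb x0)
      have h3 := (Metric.tendsto_nhds.1 h2) (ε / 2) (by positivity)
      filter_upwards [h3] with s hs
      rwa [Real.dist_eq] at hs
    have h2 : ∀ᶠ s : Finset ℕ in atTop, ∀ f ∈ Fs, |f (vv e s (co hb x0)) - f x0| < ε / 2 :=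
      (Finset.eventually_all Fs).2 h1
    obtain ⟨s, hs⟩ := h2.exists
    exact ⟨_, s, co hb x0, ⟨(norm_section_le hu hb x0 s).trans hx0, hs⟩, rfl⟩
  set σ : ℝ := sSup T with hσ
  obtain ⟨r, ⟨s1, a0, hP0, rfl⟩, hr⟩ := exists_lt_of_lt_csSup hTn
    (show σ - ε / 16 < σ by linarith)
  let a1 : ℕ → ℝ := fun n => if n ∈ s1 then a0 n else 0
  have ha1 : ∀ n ∈ s1, a1 n = a0 n := fun n hn => if_pos hn
  have ha1' : ∀ n, n ∉ s1 → a1 n = 0 := fun n hn => if_neg hn
  have hv1 : vv e s1 a1 = vv e s1 a0 := by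
    unfold vv
    exact Finset.sum_congr rfl fun n hn => by rw [ha1 n hn]
  have hS1 : SS e Fs s1 a1 = SS e Fs s1 a0 := by
    unfold SS
    exact Finset.sum_congr rfl fun n hn => by rw [ha1 n hn]
  have hP1 : P s1 a1 := by
    refine ⟨?_, ?_⟩
    · rw [hv1]; exact hP0.1
    · rw [hv1]; exact hP0.2
  rw [← hS1] at hr
  by_contra hcon
  push Not at hcon
  -- the base level
  set N0 : ℕ := s1.sup id + 1 with hN0
  have hs1N0 : ∀ i, s1 ⊆ Finset.range (N0 + i) := by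
    intro i n hn
    rw [Finset.mem_range]
    have : n ≤ s1.sup id := Finset.le_sup (f := id) hn
    omega
  have hB0 : ∀ i : ℕ, 0 ≤ ∑ n ∈ Finset.range (N0 + i), ‖e n‖ := fun i =>
    Finset.sum_nonneg fun _ _ => norm_nonneg _
  let δ : ℕ → ℝ := fun i => 1 / (((i : ℝ) + 1) * (1 + ∑ n ∈ Finset.range (N0 + i), ‖e n‖))
  have hδ : ∀ i, 0 < δ i := by
    intro i
    have := hB0 i
    positivity
  have hch : ∀ i : ℕ, ∃ (y : X) (t : Finset ℕ), ‖y‖ ≤ 1 ∧
      (∀ n, n < N0 + i → |co hb y n - a1 n| < δ i) ∧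
      Disjoint (Finset.range (N0 + i)) t ∧ ε / 4 < SS e Fs t (co hb y) := by
    intro i
    obtain ⟨y, hy, hyn, t, ht, hS⟩ := hcon s1 a1 (N0 + i) (δ i) (hδ i) (hs1N0 i) ha1' hP1.1 hP1.2
    exact ⟨y, t, hy, hyn, ht, hS⟩
  choose y t hy hyn ht hS using hch
  let u : ℕ → X := fun i => vv e (t i) (co hb (y i))
  -- Fact A
  have hdiff : ∀ i, ‖vv e (Finset.range (N0 + i)) a1 -
      vv e (Finset.range (N0 + i)) (co hb (y i))‖ ≤ 1 / ((i : ℝ) + 1) := by
    intro i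
    have h1 : vv e (Finset.range (N0 + i)) a1 - vv e (Finset.range (N0 + i)) (co hb (y i))
        = ∑ n ∈ Finset.range (N0 + i), (a1 n - co hb (y i) n) • e n := by
      unfold vv
      rw [← Finset.sum_sub_distrib]
      exact Finset.sum_congr rfl fun n _ => by rw [sub_smul]
    rw [h1]
    calc ‖∑ n ∈ Finset.range (N0 + i), (a1 n - co hb (y i) n) • e n‖
        ≤ ∑ n ∈ Finset.range (N0 + i), ‖(a1 n - co hb (y i) n) • e n‖ := norm_sum_le _ _
      _ ≤ ∑ n ∈ Finset.range (N0 + i), δ i * ‖e n‖ := by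
          refine Finset.sum_le_sum fun n hn => ?_
          rw [norm_smul, Real.norm_eq_abs, abs_sub_comm]
          exact mul_le_mul_of_nonneg_right (hyn i n (Finset.mem_range.1 hn)).le (norm_nonneg _)
      _ = δ i * ∑ n ∈ Finset.range (N0 + i), ‖e n‖ := by rw [Finset.mul_sum]
      _ ≤ 1 / ((i : ℝ) + 1) := by
          have h2 := hB0 i
          show 1 / (((i : ℝ) + 1) * (1 + ∑ n ∈ Finset.range (N0 + i), ‖e n‖)) * _ ≤ _
          rw [one_div_mul_eq_div, div_le_div_iff₀ (by positivity) (by positivity)]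
          nlinarith
  have hbase : ∀ i, vv e s1 a1 = vv e (Finset.range (N0 + i)) a1 := by
    intro i
    unfold vv
    refine Finset.sum_subset (hs1N0 i) fun n _ hn => ?_
    rw [ha1' n hn, zero_smul]
  have hsign : ∀ i, ∀ c : ℝ, (c = 1 ∨ c = -1) →
      ‖vv e (Finset.range (N0 + i)) (co hb (y i)) + c • u i‖ ≤ 1 := by
    intro i c hc
    have h1 : vv e (Finset.range (N0 + i)) (co hb (y i)) + c • u i =
        ∑ n ∈ Finset.range (N0 + i) ∪ t i,
          ((if n ∈ t i then c else 1) * co hb (y i) n) • e n := by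
      rw [Finset.sum_union (ht i)]
      congr 1
      · unfold vv
        refine Finset.sum_congr rfl fun n hn => ?_
        rw [if_neg (Finset.disjoint_left.1 (ht i) hn), one_mul]
      · show c • vv e (t i) (co hb (y i)) = _
        unfold vv
        rw [Finset.smul_sum]
        refine Finset.sum_congr rfl fun n hn => ?_
        rw [if_pos hn, smul_smul]
    rw [h1]
    refine (hu _ _ _ fun n => ?_).trans ((norm_section_le hu hb (y i) _).trans (hy i))
    split_ifs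
    · exact hc
    · exact Or.inl rfl
  have hA : ∀ i, ∀ c : ℝ, (c = 1 ∨ c = -1) → ‖vv e s1 a1 + c • u i‖ ≤ 1 + 1 / ((i : ℝ) + 1) := by
    intro i c hc
    have h1 : vv e s1 a1 + c • u i = (vv e (Finset.range (N0 + i)) (co hb (y i)) + c • u i) +
        (vv e (Finset.range (N0 + i)) a1 - vv e (Finset.range (N0 + i)) (co hb (y i))) := by
      rw [hbase i]; abel
    rw [h1]
    exact (norm_add_le _ _).trans (add_le_add (hsign i c hc) (hdiff i))
  have hun : ∀ i, ‖u i‖ ≤ 1 := fun i => (norm_section_le hu hb (y i) _).trans (hy i)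
  -- compactness
  let g : ℕ → (Fs → ℝ) := fun i f => (f : StrongDual ℝ X) (u i)
  have hgb : ∀ i, g i ∈ Metric.closedBall (0 : Fs → ℝ) C := by
    intro i
    rw [mem_closedBall_zero_iff, pi_norm_le_iff_of_nonneg hC0]
    intro f
    calc ‖(f : StrongDual ℝ X) (u i)‖ ≤ ‖(f : StrongDual ℝ X)‖ * ‖u i‖ :=
          (f : StrongDual ℝ X).le_opNorm _
      _ ≤ ‖(f : StrongDual ℝ X)‖ * 1 := mul_le_mul_of_nonneg_left (hun i) (norm_nonneg _)
      _ = ‖(f : StrongDual ℝ X)‖ := mul_one _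
      _ ≤ C := Finset.single_le_sum (f := fun f : StrongDual ℝ X => ‖f‖)
          (fun _ _ => norm_nonneg _) f.2
  obtain ⟨l, -, φ, hφ, hl⟩ := tendsto_subseq_of_bounded Metric.isBounded_closedBall hgb
  let m : ℕ → ℕ := fun i => max i ((t (φ i)).sup id + 1)
  have hmi : ∀ i, i ≤ m i := fun i => le_max_left _ _
  have hmt : Tendsto m atTop atTop := tendsto_atTop_mono hmi tendsto_id
  have htm : ∀ i, t (φ i) ⊆ Finset.range (N0 + φ (m i)) := by
    intro i n hn
    rw [Finset.mem_range]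
    have h1 : n ≤ (t (φ i)).sup id := Finset.le_sup (f := id) hn
    have h2 : (t (φ i)).sup id + 1 ≤ m i := le_max_right _ _
    have h3 : m i ≤ φ (m i) := hφ.id_le _
    omega
  have hg2 : Tendsto (fun i => g (φ i) - g (φ (m i))) atTop (𝓝 0) := by
    have := hl.sub (hl.comp hmt)
    simpa using this
  have hfu : ∀ f ∈ Fs, Tendsto (fun i => f (u (φ i)) - f (u (φ (m i)))) atTop (𝓝 0) := by
    intro f hf
    have := (tendsto_pi_nhds.1 hg2) ⟨f, hf⟩
    simpa using this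
  -- the new vectors
  let R : ℕ → ℝ := fun i => 1 + 1 / ((i : ℝ) + 1)
  have hR1 : ∀ i, 0 < R i := by
    intro i
    show 0 < 1 + 1 / ((i : ℝ) + 1)
    positivity
  have hRt : Tendsto (fun i => (R i)⁻¹) atTop (𝓝 1) := by
    have h1 : Tendsto R atTop (𝓝 (1 + 0)) :=
      tendsto_const_nhds.add tendsto_one_div_add_atTop_nhds_zero_nat
    have h2 := h1.inv₀ (by norm_num)
    simpa using h2
  let z : ℕ → X := fun i => vv e s1 a1 + (1 / 2 : ℝ) • (u (φ i) - u (φ (m i)))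
  have hz : ∀ i, ‖z i‖ ≤ R i := by
    intro i
    have h1 : z i = (1 / 2 : ℝ) • ((vv e s1 a1 + (1 : ℝ) • u (φ i)) +
        (vv e s1 a1 + (-1 : ℝ) • u (φ (m i)))) := by
      show vv e s1 a1 + (1 / 2 : ℝ) • (u (φ i) - u (φ (m i))) = _
      module
    have h2 := hA (φ i) 1 (Or.inl rfl)
    have h3 := hA (φ (m i)) (-1) (Or.inr rfl)
    have h4 : 1 / ((φ i : ℝ) + 1) ≤ 1 / ((i : ℝ) + 1) := by
      have : (i : ℝ) ≤ φ i := by exact_mod_cast hφ.id_le i
      gcongr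
    have h5 : 1 / ((φ (m i) : ℝ) + 1) ≤ 1 / ((i : ℝ) + 1) := by
      have : (i : ℝ) ≤ φ (m i) := by exact_mod_cast (hmi i).trans (hφ.id_le (m i))
      gcongr
    have h6 := norm_add_le (vv e s1 a1 + (1 : ℝ) • u (φ i)) (vv e s1 a1 + (-1 : ℝ) • u (φ (m i)))
    rw [h1, norm_smul]
    have h7 : ‖(1 / 2 : ℝ)‖ = 1 / 2 := by norm_num
    rw [h7]
    show _ ≤ 1 + 1 / ((i : ℝ) + 1)
    linarith
  let a2 : ℕ → ℕ → ℝ := fun i n => (R i)⁻¹ * (if n ∈ s1 then a1 n else
    if n ∈ t (φ i) then (1 / 2) * co hb (y (φ i)) n else (-(1 / 2)) * co hb (y (φ (m i))) n)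
  have hd1 : ∀ i, Disjoint s1 (t i) := fun i => Finset.disjoint_of_subset_left (hs1N0 i) (ht i)
  have hd2 : ∀ i, Disjoint (t (φ i)) (t (φ (m i))) := fun i =>
    Finset.disjoint_of_subset_left (htm i) (ht _)
  have hd3 : ∀ i, Disjoint (s1 ∪ t (φ i)) (t (φ (m i))) := fun i =>
    Finset.disjoint_union_left.2 ⟨hd1 _, hd2 i⟩
  have hva2 : ∀ i, vv e (s1 ∪ t (φ i) ∪ t (φ (m i))) (a2 i) = (R i)⁻¹ • z i := by
    intro i
    have e1 : ∑ n ∈ s1, a2 i n • e n = (R i)⁻¹ • vv e s1 a1 := by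
      unfold vv
      rw [Finset.smul_sum]
      refine Finset.sum_congr rfl fun n hn => ?_
      simp only [a2]
      rw [if_pos hn, mul_smul]
    have e2 : ∑ n ∈ t (φ i), a2 i n • e n = (R i)⁻¹ • ((1 / 2 : ℝ) • u (φ i)) := by
      show _ = (R i)⁻¹ • ((1 / 2 : ℝ) • vv e (t (φ i)) (co hb (y (φ i))))
      unfold vv
      rw [Finset.smul_sum, Finset.smul_sum]
      refine Finset.sum_congr rfl fun n hn => ?_
      simp only [a2]
      rw [if_neg (Finset.disjoint_right.1 (hd1 _) hn), if_pos hn, mul_smul, mul_smul]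
    have e3 : ∑ n ∈ t (φ (m i)), a2 i n • e n = (R i)⁻¹ • ((-(1 / 2) : ℝ) • u (φ (m i))) := by
      show _ = (R i)⁻¹ • ((-(1 / 2) : ℝ) • vv e (t (φ (m i))) (co hb (y (φ (m i)))))
      unfold vv
      rw [Finset.smul_sum, Finset.smul_sum]
      refine Finset.sum_congr rfl fun n hn => ?_
      simp only [a2]
      rw [if_neg (Finset.disjoint_right.1 (hd1 _) hn), if_neg (Finset.disjoint_right.1 (hd2 i) hn),
        mul_smul, mul_smul]
    show ∑ n ∈ s1 ∪ t (φ i) ∪ t (φ (m i)), a2 i n • e n = _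
    rw [Finset.sum_union (hd3 i), Finset.sum_union (hd1 _), e1, e2, e3]
    show _ = (R i)⁻¹ • (vv e s1 a1 + (1 / 2 : ℝ) • (u (φ i) - u (φ (m i))))
    module
  have hSa2 : ∀ i, (R i)⁻¹ * (SS e Fs s1 a1 + ε / 4) ≤
      SS e Fs (s1 ∪ t (φ i) ∪ t (φ (m i))) (a2 i) := by
    intro i
    have hRi : 0 < (R i)⁻¹ := inv_pos.2 (hR1 i)
    have e1 : ∑ n ∈ s1, ww e Fs n * |a2 i n| = (R i)⁻¹ * SS e Fs s1 a1 := by
      unfold SS
      rw [Finset.mul_sum]
      refine Finset.sum_congr rfl fun n hn => ?_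
      simp only [a2]
      rw [if_pos hn, abs_mul, abs_of_pos hRi]
      ring
    have e2 : ∑ n ∈ t (φ i), ww e Fs n * |a2 i n| =
        (R i)⁻¹ * ((1 / 2) * SS e Fs (t (φ i)) (co hb (y (φ i)))) := by
      unfold SS
      rw [Finset.mul_sum, Finset.mul_sum]
      refine Finset.sum_congr rfl fun n hn => ?_
      simp only [a2]
      rw [if_neg (Finset.disjoint_right.1 (hd1 _) hn), if_pos hn, abs_mul, abs_mul,
        abs_of_pos hRi]
      have : |(1 / 2 : ℝ)| = 1 / 2 := by norm_num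
      rw [this]
      ring
    have e3 : ∑ n ∈ t (φ (m i)), ww e Fs n * |a2 i n| =
        (R i)⁻¹ * ((1 / 2) * SS e Fs (t (φ (m i))) (co hb (y (φ (m i))))) := by
      unfold SS
      rw [Finset.mul_sum, Finset.mul_sum]
      refine Finset.sum_congr rfl fun n hn => ?_
      simp only [a2]
      rw [if_neg (Finset.disjoint_right.1 (hd1 _) hn), if_neg (Finset.disjoint_right.1 (hd2 i) hn),
        abs_mul, abs_mul, abs_of_pos hRi]
      have : |(-(1 / 2) : ℝ)| = 1 / 2 := by rw [abs_neg]; norm_num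
      rw [this]
      ring
    show _ ≤ ∑ n ∈ s1 ∪ t (φ i) ∪ t (φ (m i)), ww e Fs n * |a2 i n|
    rw [Finset.sum_union (hd3 i), Finset.sum_union (hd1 _), e1, e2, e3]
    have h1 := hS (φ i)
    have h2 := hS (φ (m i))
    nlinarith
  -- conclusion
  have hev1 : ∀ f ∈ Fs, ∀ᶠ i in atTop, |f ((R i)⁻¹ • z i) - f x0| < ε / 2 := by
    intro f hf
    have h1 : Tendsto (fun i => f ((R i)⁻¹ • z i)) atTop (𝓝 (f (vv e s1 a1))) := by
      have h2 : (fun i => f ((R i)⁻¹ • z i)) = fun i =>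
          (R i)⁻¹ * (f (vv e s1 a1) + (1 / 2) * (f (u (φ i)) - f (u (φ (m i))))) := by
        funext i
        simp only [z, map_smul, map_add, map_sub, smul_eq_mul]
      rw [h2]
      have h3 := hRt.mul ((tendsto_const_nhds (x := f (vv e s1 a1))).add
        ((hfu f hf).const_mul (1 / 2)))
      simpa using h3
    have h4 : Tendsto (fun i => |f ((R i)⁻¹ • z i) - f x0|) atTop
        (𝓝 |f (vv e s1 a1) - f x0|) := (h1.sub_const _).abs
    exact h4.eventually_lt_const (hP1.2 f hf)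
  have hev2 : ∀ᶠ i in atTop, ∀ f ∈ Fs, |f ((R i)⁻¹ • z i) - f x0| < ε / 2 :=
    (Finset.eventually_all Fs).2 hev1
  have hev3 : ∀ᶠ i in atTop, σ < (R i)⁻¹ * (SS e Fs s1 a1 + ε / 4) := by
    have h1 : Tendsto (fun i => (R i)⁻¹ * (SS e Fs s1 a1 + ε / 4)) atTop
        (𝓝 (1 * (SS e Fs s1 a1 + ε / 4))) := hRt.mul_const _
    refine h1.eventually_const_lt ?_
    rw [one_mul]
    linarith
  obtain ⟨i, hi1, hi2⟩ := (hev2.and hev3).exists
  have hPi : P (s1 ∪ t (φ i) ∪ t (φ (m i))) (a2 i) := by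
    refine ⟨?_, ?_⟩
    · rw [hva2 i, norm_smul, norm_inv, Real.norm_of_nonneg (hR1 i).le, inv_mul_le_iff₀ (hR1 i),
        mul_one]
      exact hz i
    · intro f hf
      rw [hva2 i]
      exact hi1 f hf
  have hle : SS e Fs (s1 ∪ t (φ i) ∪ t (φ (m i))) (a2 i) ≤ σ :=
    le_csSup hTb ⟨_, _, hPi, rfl⟩
  have := hSa2 i
  linarith

end Pool.Agent.Helper412_PiBase
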